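import Mathlib
import Pool.Agent.U945.LA.Pack

/-!
# The numbers `(x π) ^ (β π)` and `x ^ ξ π ^ η₀ e ^ (η₁ z₁ + ⋯)` with all algebraic bases `x`

The number `π ^ π` is the member `x = 1`, `β = 1` of the family of the numbers `(x π) ^ (β π)` with
algebraic `x ≠ 0` and algebraic `β ≠ 0`.

(1) The algebraic numbers `x ≠ 0` such that some number `(x π) ^ (β π)`, for some algebraic `β ≠ 0` and
some value of `log x`, is of the form `e ^ γ α_1 ^ β_1 ⋯ α_k ^ β_k` (with algebraic `γ`, `α_i ≠ 0`,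
`β_i`), in particular if it is algebraic, are contained in one coset of a group of rank at most `1`.
Every complex line `a x + b y = 1`, `a b ≠ 0`, contains at most `C` pairs `(x, y)` of such numbers, with
an absolute constant `C`.

(2) The same for larger families, with many exponents at the same time. Let `t_1, …, t_r` and
`z_1, …, z_s` be any complex numbers. Consider all algebraic numbers `x ≠ 0` such that a number

  `x ^ ξ π ^ η₀ e ^ (η₁ z₁ + ⋯ + η_s z_s)`

is of this form, for SOME value of `log x` and SOME exponents `ξ`, `η₀, …, η_s` in the field generated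
by `π`, `t_1, …, t_r` over the algebraic numbers, `ξ` transcendental, which are quotients of polynomials
of degree at most `D` in each variable with a common denominator. There are at most
`2 ^ (r + 2) ((2 D) ^ (r + 1) + s) - 1` multiplicatively independent ones among them. For every algebraic
subset `Z` of `G_m^d` over `ℂ` the points of `Z` with all coordinates of this kind are contained in
finitely many cosets of algebraic subgroups, which are contained in `Z`; so they are finite in number if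
`Z` is a curve which is not a finite union of cosets. For instance, all but finitely many algebraic
numbers `x` are such that for `x` or for `x + 1` none of these numbers is algebraic.

The integers among these numbers were counted in `PowersTimesPowersOfPi` (starting files), whose method
(hyperplane case of the linear subgroup theorem of Waldschmidt and Roy) gives the bound for the number of
independent elements.  For all algebraic numbers and subvarieties this is combined with the theorem on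
the unit equation in groups of finite rank of algebraic numbers (Laurent), proved in
`Pool.Agent.U945.LA`, and for lines with the theorem of Beukers and Schlickewei.
-/

set_option autoImplicit false

namespace Pool.Agent.Results.MP_4c2ad3_nt.AlgebraicBases

open Pool.Agent.U945.LA (RkLe rkLe_of_logs many' line_set line_coset dep_of_one pack)
open Pool.Agent.H301R2.SSE (QB mem_QB Lt Lt_one Lt_log Lg mem_Lg)

/-- The linear combinations, with algebraic coefficients, of `1` and of logarithms of algebraic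
numbers. The numbers `e ^ w` with `w` in `LogForms` are the numbers `e ^ γ α_1 ^ β_1 ⋯ α_k ^ β_k` with
algebraic `γ`, `α_i ≠ 0`, `β_i`; if `e ^ w` is algebraic, then `w` is in `LogForms`. -/
noncomputable def LogForms : Submodule (algebraicClosure ℚ ℂ) ℂ :=
  Submodule.span (algebraicClosure ℚ ℂ) ({1} ∪ {z : ℂ | IsAlgebraic ℚ (Complex.exp z)})

/-- `l` is a logarithm of `x`, up to a rational multiple of `2 π i` -/
def IsLog (x : ℂˣ) (l : ℂ) : Prop := ∃ n : ℕ, 0 < n ∧ Complex.exp (n * l) = (x : ℂ) ^ n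

/-- The algebraic numbers `x ≠ 0` such that, for some algebraic `β ≠ 0` and some logarithm `l` of `x`,
the logarithm `β π (l + log π)` of `(x π) ^ (β π)` is in `LogForms`. -/
def Family : Set ℂˣ :=
  {x | IsAlgebraic ℚ (x : ℂ) ∧ ∃ β : ℂ, IsAlgebraic ℚ β ∧ β ≠ 0 ∧ ∃ l : ℂ, IsLog x l ∧
    β * Real.pi * (l + Real.log Real.pi) ∈ LogForms}

/-- The tuples `(ξ, η)` with `ξ = P(t) / Q(t)` transcendental and `η_k = S_k(t) / Q(t)`, where `P`, `Q`,
`S_k` are polynomials with algebraic coefficients, of degree at most `D` in each variable. -/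
def Exponents {r s : ℕ} (t : Fin r → ℂ) (D : ℕ) : Set (ℂ × (Fin s → ℂ)) :=
  {e | Transcendental ℚ e.1 ∧ ∃ (P Q : MvPolynomial (Fin r) (algebraicClosure ℚ ℂ))
    (S : Fin s → MvPolynomial (Fin r) (algebraicClosure ℚ ℂ)),
    (∀ i, P.degreeOf i ≤ D) ∧ (∀ i, Q.degreeOf i ≤ D) ∧ (∀ k i, (S k).degreeOf i ≤ D) ∧
    MvPolynomial.aeval t Q ≠ 0 ∧ e.1 = MvPolynomial.aeval t P / MvPolynomial.aeval t Q ∧
    ∀ k, e.2 k = MvPolynomial.aeval t (S k) / MvPolynomial.aeval t Q}

/-- The algebraic numbers `x ≠ 0` such that `ξ l + ∑ k, η_k z_k`, the logarithm of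
`x ^ ξ e ^ (∑ k, η_k z_k)`, is in `LogForms` for SOME logarithm `l` of `x` and SOME exponents. -/
def Bases {r s : ℕ} (t : Fin r → ℂ) (z : Fin s → ℂ) (D : ℕ) : Set ℂˣ :=
  {x | IsAlgebraic ℚ (x : ℂ) ∧ ∃ e ∈ Exponents t D, ∃ l : ℂ, IsLog x l ∧
    e.1 * l + ∑ k, e.2 k * z k ∈ LogForms}

/-- `A` contains at most `B` multiplicatively independent elements. -/
def RankAtMost (A : Set ℂˣ) (B : ℕ) : Prop :=
  ∀ (n : ℕ) (X : Fin n → ℂˣ), (∀ j, X j ∈ A) → (∀ k : Fin n → ℤ, ∏ j, X j ^ k j = 1 → k = 0) → n ≤ B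

/-- The coset of an algebraic subgroup of the torus: the `z` such that `z ^ m = y ^ m` for all `m` in
the finite set `M` of integral vectors. -/
def Coset {d : ℕ} (y : Fin d → ℂˣ) (M : Finset (Fin d → ℤ)) : Set (Fin d → ℂˣ) :=
  {z | ∀ m ∈ M, ∏ i, z i ^ m i = ∏ i, y i ^ m i}

/-- The algebraic subset of the torus defined by the polynomials `P j`. -/
def Zeros {d s : ℕ} (P : Fin s → MvPolynomial (Fin d) ℂ) : Set (Fin d → ℂˣ) :=
  {z | ∀ j, MvPolynomial.eval (fun i => (z i : ℂ)) (P j) = 0}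

theorem pi_tr : Transcendental ℚ ((Real.pi : ℝ) : ℂ) :=
  Pool.Agent.HP778.ofReal_transcendental Pool.Agent.H340R2.LW.transcendental_pi

theorem pi_ne : ((Real.pi : ℝ) : ℂ) ≠ 0 := by exact_mod_cast Real.pi_ne_zero

theorem quo_rank (x : ℂˣ) (hx : x ∈ Family) : RkLe {g | ∃ y ∈ Family, g = y / x} 1 := by
  refine rkLe_of_logs (R := fun v => (Real.pi : ℂ) * v ∈ Lt) (fun m l halg hli h => ?_) ?_
  · have h1 := Pool.Agent.HP778.logs_poly' pi_tr Pool.Agent.HP778.pi_mem_Lt le_rfl l halg hli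
      (fun i => ⟨Polynomial.X, by simp, by simp, by simpa using h i⟩)
    omega
  · rintro g ⟨y, hy, rfl⟩
    obtain ⟨hxa, β, hβ, hβ0, l, ⟨n, hn, hl⟩, h1⟩ := hx
    obtain ⟨hya, β', hβ', hβ0', l', ⟨n', hn', hl'⟩, h2⟩ := hy
    have hx0 := x.ne_zero
    refine ⟨?_, l' - l, ⟨n * n', Nat.mul_pos hn hn', ?_⟩, ?_⟩
    · rw [Units.val_div_eq_div_val, div_eq_mul_inv]
      exact hya.mul hxa.inv
    · have e1 : ((n * n' : ℕ) : ℂ) * (l' - l) = n * (n' * l') - n' * (n * l) := by
        push_cast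
        ring
      rw [e1, Complex.exp_sub, Complex.exp_nat_mul (n' * l') n, hl',
        Complex.exp_nat_mul (n * l) n', hl, Units.val_div_eq_div_val, div_pow, ← pow_mul, ← pow_mul,
        mul_comm n' n]
    · have h3 := Pool.Agent.H301R2.SSE.Lt_mul hβ.inv h1
      have h4 := Pool.Agent.H301R2.SSE.Lt_mul hβ'.inv h2
      have h5 : (Real.pi : ℂ) * (l' - l) =
          β'⁻¹ * (β' * Real.pi * (l' + Real.log Real.pi)) -
            β⁻¹ * (β * Real.pi * (l + Real.log Real.pi)) := by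
        field_simp
        ring
      rw [h5]
      exact sub_mem h4 h3

/-- **The numbers `(x π) ^ (β π)` and `x ^ ξ π ^ η₀ e ^ (∑ k, η_k z_k)` at algebraic bases.** -/
theorem result : ∃ C : ℕ,
    -- (1) the family of the problem: one coset of a group of rank at most 1
    (∀ x ∈ Family, ∀ y ∈ Family, ∀ z ∈ Family,
      ∃ a b : ℤ, (a ≠ 0 ∨ b ≠ 0) ∧ (y / x) ^ a = (z / x) ^ b) ∧
    (∀ a b : ℂ, a ≠ 0 → b ≠ 0 → ∀ E : Finset (ℂˣ × ℂˣ),
      (∀ e ∈ E, e.1 ∈ Family ∧ e.2 ∈ Family ∧ a * e.1 + b * e.2 = 1) → E.card ≤ C) ∧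
    -- (2) the numbers `x ^ ξ π ^ η₀ e ^ (η₁ z₁ + ⋯)`
    ∀ (r s D : ℕ) (t : Fin r → ℂ) (z : Fin s → ℂ), 1 ≤ D →
      ∀ A : Set ℂˣ, A = Bases (Fin.cons (Real.pi : ℂ) t : Fin (r + 1) → ℂ)
        (Fin.cons (Real.log Real.pi : ℂ) z : Fin (s + 1) → ℂ) D →
      Family ⊆ A ∧
      RankAtMost A (2 ^ (r + 2) * ((2 * D) ^ (r + 1) + s) - 1) ∧
      (∀ a b : ℂ, a ≠ 0 → b ≠ 0 → ∀ E : Finset (ℂˣ × ℂˣ),
        (∀ e ∈ E, e.1 ∈ A ∧ e.2 ∈ A ∧ a * e.1 + b * e.2 = 1) →
          E.card ≤ C ^ (2 ^ (r + 2) * ((2 * D) ^ (r + 1) + s))) ∧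
      ∀ d : ℕ,
        -- algebraic subsets
        (∀ (s : ℕ) (P : Fin s → MvPolynomial (Fin d) ℂ),
          ∃ T : Finset ((Fin d → ℂˣ) × Finset (Fin d → ℤ)),
            (∀ t ∈ T, (∀ i, t.1 i ∈ A) ∧ Coset t.1 t.2 ⊆ Zeros P) ∧
            ∀ x : Fin d → ℂˣ, (∀ i, x i ∈ A) → x ∈ Zeros P → ∃ t ∈ T, x ∈ Coset t.1 t.2) ∧
        -- algebraic subsets without infinite cosets
        (∀ (s : ℕ) (P : Fin s → MvPolynomial (Fin d) ℂ),
          (∀ y M, Coset y M ⊆ Zeros P → (Coset y M).Finite) →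
            {x | (∀ i, x i ∈ A) ∧ x ∈ Zeros P}.Finite) ∧
        -- hyperplanes
        (∀ a : Fin d → ℂ, {x : Fin d → ℂˣ | (∀ i, x i ∈ A) ∧ ∑ i, a i * (x i : ℂ) = 1 ∧
          ∀ J : Finset (Fin d), J.Nonempty → ∑ i ∈ J, a i * (x i : ℂ) ≠ 0}.Finite) := by
  obtain ⟨C, hC1, hC⟩ := line_set
  refine ⟨C ^ 2, fun x hx y hy z hz => ?_, fun a b ha hb E hE => ?_,
    fun r s D t z hD A hA => ?_⟩
  · exact dep_of_one (quo_rank x hx) ⟨y, hy, rfl⟩ ⟨z, hz, rfl⟩
  · exact line_coset hC quo_rank a b ha hb E hE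
  have hrank' : ∀ (n : ℕ) (X : Fin n → ℂˣ), (∀ j, X j ∈ A) →
      (∀ k : Fin n → ℤ, ∏ j, X j ^ k j = 1 → k = 0) →
      n ≤ 2 ^ (r + 2) * ((2 * D) ^ (r + 1) + s) - 1 := by
    refine rkLe_of_logs (A := A) (R := fun l => ∃ x y, Pool.Agent.U945.LA.IsQuots D
      (Fin.cons (Real.pi : ℂ) t : Fin (r + 1) → ℂ) x y ∧ Transcendental ℚ x ∧
        x * l + ∑ k, y k * (Fin.cons (Real.log Real.pi : ℂ) z : Fin (s + 1) → ℂ) k ∈ Lt)
      (fun m l halg hli h => ?_) (fun x hx => ?_)
    · have h1 := many' (Fin.cons (Real.pi : ℂ) t : Fin (r + 1) → ℂ)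
        (Fin.cons (Real.log Real.pi : ℂ) z : Fin (s + 1) → ℂ) hD 0
        (by rw [Fin.cons_zero]; exact pi_tr)
        (by rw [Fin.cons_zero]; exact Pool.Agent.HP778.pi_mem_Lt) l halg hli h
      have e1 : 2 ^ (r + 1 + 1) * ((2 * D) ^ (r + 1) + (s + 1) - 1) =
          2 ^ (r + 2) * ((2 * D) ^ (r + 1) + s) := by
        congr 1
      rw [e1] at h1
      omega
    · rw [hA] at hx
      obtain ⟨hxa, e, ⟨htr, P, Q, S, h1, h2, h3, h4, h5, h6⟩, l, hl, h7⟩ := hx
      exact ⟨hxa, l, hl, e.1, e.2, ⟨P, Q, S, h1, h2, h3, h4, h5, h6⟩, htr, h7⟩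
  have hrank : RkLe A (2 ^ (r + 2) * ((2 * D) ^ (r + 1) + s) - 1) := hrank'
  have hpos : 1 ≤ 2 ^ (r + 2) * ((2 * D) ^ (r + 1) + s) := by
    apply Nat.mul_pos (by positivity)
    have : 0 < (2 * D) ^ (r + 1) := Nat.pow_pos (by omega)
    omega
  have hAalg : ∀ x ∈ A, IsAlgebraic ℚ (x : ℂ) := by
    intro x hx
    rw [hA] at hx
    exact hx.1
  refine ⟨?_, hrank', fun a b ha hb E hE => ?_, fun d => pack hAalg hrank d⟩
  · rintro x ⟨hxa, β, hβ, hβ0, l, hl, h1⟩
    rw [hA]
    set b : algebraicClosure ℚ ℂ := ⟨β, mem_QB.2 hβ⟩ with hb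
    refine ⟨hxa, (β * Real.pi, Fin.cons (β * Real.pi) 0), ⟨fun halg => ?_,
      MvPolynomial.C b * MvPolynomial.X 0, 1, Fin.cons (MvPolynomial.C b * MvPolynomial.X 0) 0,
      fun i => ?_, fun i => ?_, fun k i => ?_, ?_, ?_, fun k => ?_⟩, l, hl, ?_⟩
    · apply pi_tr
      have h2 : ((Real.pi : ℝ) : ℂ) = β⁻¹ * (β * Real.pi) := by field_simp
      rw [h2]
      exact hβ.inv.mul halg
    · refine (MvPolynomial.degreeOf_C_mul_le _ _ _).trans ?_
      rw [MvPolynomial.degreeOf_X]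
      split_ifs <;> omega
    · rw [MvPolynomial.degreeOf_one]; exact Nat.zero_le _
    · refine Fin.cases ?_ (fun k => ?_) k
      · rw [Fin.cons_zero]
        refine (MvPolynomial.degreeOf_C_mul_le _ _ _).trans ?_
        rw [MvPolynomial.degreeOf_X]
        split_ifs <;> omega
      · rw [Fin.cons_succ, Pi.zero_apply, MvPolynomial.degreeOf_zero]; exact Nat.zero_le _
    · simp
    · simp [hb]
    · refine Fin.cases ?_ (fun k => ?_) k
      · simp [hb]
      · simp
    · rw [Fin.sum_univ_succ]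
      simp only [Fin.cons_zero, Fin.cons_succ, Pi.zero_apply, zero_mul, Finset.sum_const_zero,
        add_zero]
      have h2 : β * Real.pi * l + β * Real.pi * (Real.log Real.pi : ℂ) =
          β * Real.pi * (l + Real.log Real.pi) := by ring
      rw [h2]
      exact h1
  · have h1 := hC A _ hrank a b ha hb E hE
    refine h1.trans ?_
    rw [← pow_mul]
    exact Nat.pow_le_pow_right hC1 (by omega)

end Pool.Agent.Results.MP_4c2ad3_nt.AlgebraicBases
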