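import Pool.Agent.U536.DS.Sc
import Pool.Agent.U536.CF.Lg
import Pool.Agent.Results.MP_4c2ad3_nt.PowersTimesPowersOfPi

/-!
# The numbers `(n π) ^ (β π)` and `n ^ x π ^ y` for integers `n` near the integral combinations of two divisors of a value
of a multiplicative function

The number `π ^ π` is the member `n = 1`, `β = 1` of the family `(n π) ^ (β π)`. Let `f` be a positive multiplicative
function of at most polynomial growth such that `f p ≤ M p` for the large primes `p`, with different values at different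
large primes; for example Euler's function or the sum of the divisors. Let `G` have steps bounded below by a positive
constant and growth at most `v^d`, for example `α v^d` with any `d ≥ 1`. Let `D ≥ 1`, `B < 1`, `0 ≤ c < 2 B - 1`, `θ < B`
and `0 ≤ κ < 1`. For all large `N`, for all `m ≤ N` but `N exp (-(log N)^c)`, for EVERY integer `w ≥ exp ((log N)^B)` of
the form `w = u s + v s'` with divisors `s`, `s'` of `f(m)` and integers `|u|, |v| ≤ exp ((log N)^θ)` and EVERY integer
`n ≥ 1` with `|n - G w| ≤ w ^ κ`, the numbers `(n π) ^ (β π)`, for ALL algebraic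
`β ≠ 0`, and `n ^ x π ^ y`, for ALL `x = P(π, e) / Q(π, e)` transcendental and `y = S(π, e) / Q(π, e)` with polynomials
`P`, `Q`, `S` with algebraic coefficients of degree at most `D` in each variable, are not of the form
`e ^ γ α_1 ^ β_1 ⋯ α_k ^ β_k` with algebraic `γ`, `α_i ≠ 0`, `β_i` (`Prods`); in particular they are transcendental. The
integers `w` include all large divisors of `f(m)` and the large sums and differences of ANY two divisors of `f(m)`; for
Euler's function, those of the orders of any two units modulo `m`.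

Proof. The file `PowersTimesPowersOfPi` of the starting library bounds the number of the exceptional `n ≤ N` by a power
of `log N`. Write `m = k' u` with `u` squarefree and composed of primes larger than `N^(1/J)`, `J = (log N)^s`, and `k' ≤
exp (4 (log N)^s)`; this is possible for all `m ≤ N` but very few. If `v ∣ f(k') f(u)`, then the number of such `u ≤ N /
k'` is at most `N / (k' v')` times `(log N)^O(J)` times the number `τ_J(v')` of the ordered factorizations of `v'` into
`J` factors, `v' = v / gcd(v, f(k'))`. Take for `v` the least common multiple of `s` and `s'`: the sum of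
`1 / [s, s']` over the pairs `s, s' ≤ X` with `u s + v s' = w` is at most `4 U (1 + log X) τ(w) / w` if `|u|, |v| ≤ U`;
the inequality `τ_J^q ≤ τ_K` for `K ≥ J^q` and Hölder's inequality bound the sum over the pairs with exceptional `w`. The
integers of the hand-in `CommonFactors` of this page have a large common factor with `f(m)`; the sums and differences of
two divisors of `f(m)` have in general none.
-/

set_option autoImplicit false

namespace Pool.Agent.Results.MP_4c2ad3_nt.DivisorSums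

open Pool.Agent.N733.TG (LM Expanding lm_totient lm_sigma expanding_pow)
open Pool.Agent.U536.DS (Comb comb_scale_nat comb_pm comb_orders)
open Pool.Agent.U536.CF (log_pow_le exists_small)
open Pool.Agent.Results.MP_4c2ad3_nt.PowersTimesPowersOfPi (Prods badBases bad ratPairs)

/-- `(n π) ^ (β π)` is not in `Prods` for all algebraic `β ≠ 0`, and `n ^ x π ^ y` is not in `Prods` for all
`x = P(π, e) / Q(π, e)` transcendental and `y = S(π, e) / Q(π, e)` with polynomials with algebraic coefficients of degree at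
most `D` in each variable -/
def Good (D n : ℕ) : Prop :=
  (∀ β : ℂ, IsAlgebraic ℚ β → β ≠ 0 → (((n * Real.pi : ℝ) : ℝ) : ℂ) ^ (β * Real.pi) ∉ Prods) ∧
  ∀ xy ∈ ratPairs ![((Real.pi : ℝ) : ℂ), ((Real.exp 1 : ℝ) : ℂ)] D,
    (n : ℂ) ^ xy.1 * ((Real.pi : ℝ) : ℂ) ^ xy.2 ∉ Prods

/-- the number of the exceptional integers -/
lemma count (D : ℕ) (hD : 1 ≤ D) {s : ℝ} (hs : 0 < s) : ∃ C : ℝ, ∀ M : ℕ, 1 ≤ M →
    ({n : ℕ | 1 ≤ n ∧ n ≤ M ∧ ¬ Good D n}.ncard : ℝ) ≤ C * (M : ℝ) ^ s := by
  classical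
  obtain ⟨C₁, -, hC₁⟩ := log_pow_le 1 hs
  obtain ⟨C₂, -, hC₂⟩ := log_pow_le (32 * D ^ 2 - 1) hs
  refine ⟨C₁ + C₂, fun M hM => ?_⟩
  have h1 : ((badBases M).card : ℝ) ≤ (((Nat.log 2 M + 1) ^ 1 : ℕ) : ℝ) := by
    rw [pow_one]
    exact_mod_cast PowersTimesPowersOfPi.result.1 M
  have h2 : ((bad (ratPairs ![((Real.pi : ℝ) : ℂ), ((Real.exp 1 : ℝ) : ℂ)] D) M).card : ℝ) ≤
      (((Nat.log 2 M + 1) ^ (32 * D ^ 2 - 1) : ℕ) : ℝ) := by
    exact_mod_cast (PowersTimesPowersOfPi.result.2.2.1 D M hD).2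
  have h3 : {n : ℕ | 1 ≤ n ∧ n ≤ M ∧ ¬ Good D n} ⊆
      ((badBases M ∪ bad (ratPairs ![((Real.pi : ℝ) : ℂ), ((Real.exp 1 : ℝ) : ℂ)] D) M : Finset ℕ) : Set ℕ) := by
    rintro n ⟨g1, g2, g3⟩
    rw [Finset.coe_union]
    by_cases g4 : ∀ β : ℂ, IsAlgebraic ℚ β → β ≠ 0 → (((n * Real.pi : ℝ) : ℝ) : ℂ) ^ (β * Real.pi) ∉ Prods
    · right
      unfold bad
      rw [Finset.mem_coe, Finset.mem_filter, Finset.mem_Icc]
      refine ⟨⟨g1, g2⟩, ?_⟩
      by_contra g5
      push Not at g5
      exact g3 ⟨g4, g5⟩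
    · left
      unfold badBases
      rw [Finset.mem_coe, Finset.mem_filter, Finset.mem_Icc]
      refine ⟨⟨g1, g2⟩, ?_⟩
      push Not at g4
      exact g4
  have h4 := Set.ncard_le_ncard h3 (Finset.finite_toSet _)
  rw [Set.ncard_coe_finset] at h4
  have h5 := h4.trans (Finset.card_union_le _ _)
  have h6 : ({n : ℕ | 1 ≤ n ∧ n ≤ M ∧ ¬ Good D n}.ncard : ℝ) ≤ ((badBases M).card : ℝ) +
      ((bad (ratPairs ![((Real.pi : ℝ) : ℂ), ((Real.exp 1 : ℝ) : ℂ)] D) M).card : ℝ) := by
    exact_mod_cast h5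
  have h7 := hC₁ M hM
  have h8 := hC₂ M hM
  have h9 : (C₁ + C₂) * (M : ℝ) ^ s = C₁ * (M : ℝ) ^ s + C₂ * (M : ℝ) ^ s := by ring
  linarith

/-- **The numbers `(n π) ^ (β π)` and `n ^ x π ^ y` for `n` near the integral combinations of two divisors of a value of a
multiplicative function.** Let `f` be multiplicative and positive, of at most polynomial growth, with `f p ≤ M p` at the
large primes, and injective there (`LM`). Let `G` have steps `≥ a > 0` and growth at most `v^d`. Let `D ≥ 1`, `B < 1`, `0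
≤ c < 2 B - 1`, `θ < B` and `0 ≤ κ < 1`. For all large `N`, for all `m ≤ N` but `N exp (-(log N)^c)`, for EVERY integer
`w ≥ exp ((log N)^B)` of the form `w = u s + v s'` with divisors `s`, `s'` of `f(m)` and integers `|u|, |v| ≤ exp ((log
N)^θ)` and EVERY integer `n ≥ 1` with `|n - G w| ≤ w ^ κ`: `Good D n`. All the sums and differences `≥ exp ((log N)^B)` of
two divisors of `f(m)` are such integers `w`, and for Euler's function those of the orders of two units modulo `m`. Euler's function and the sum of the divisors are examples of `f`, and `α v^d` with `α > 0`, `d ≥ 1` is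
an example of `G`. All algebraic numbers different from `0` are in `Prods`. -/
theorem result :
    (∀ D : ℕ, 1 ≤ D → ∀ f : ℕ → ℕ, LM f → ∀ (G : ℕ → ℝ) (d : ℝ), Expanding G d →
      ∀ κ θ B c : ℝ, 0 ≤ κ → κ < 1 → θ < B → B < 1 → 0 ≤ c → c < 2 * B - 1 →
      ∃ N₀ : ℕ, ∀ N : ℕ, N₀ ≤ N →
        ({m : ℕ | 1 ≤ m ∧ m ≤ N ∧ ¬ ∀ w : ℕ, Comb f B θ N m w → ∀ n : ℕ, 1 ≤ n → |(n : ℝ) - G w| ≤ (w : ℝ) ^ κ →
          Good D n}.ncard : ℝ) ≤ N * Real.exp (-(Real.log N ^ c))) ∧
    (∀ x : ℂ, x ≠ 0 → IsAlgebraic ℚ x → x ∈ Prods) ∧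
    (LM Nat.totient ∧ LM (fun m => ∑ d ∈ m.divisors, d)) ∧
    (∀ α d : ℝ, 0 < α → 1 ≤ d → Expanding (fun v => α * (v : ℝ) ^ d) d) ∧
    (∀ (f : ℕ → ℕ) (B θ : ℝ) (N m s t : ℕ), s ∣ f m → t ∣ f m →
      (Real.exp (Real.log N ^ B) ≤ ((s + t : ℕ) : ℝ) → Comb f B θ N m (s + t)) ∧
      (Real.exp (Real.log N ^ B) ≤ ((s - t : ℕ) : ℝ) → Comb f B θ N m (s - t)) ∧
      (Real.exp (Real.log N ^ B) ≤ (s : ℝ) → Comb f B θ N m s)) ∧
    ∀ (B θ : ℝ) (N m : ℕ) (x y : (ZMod m)ˣ),
      (Real.exp (Real.log N ^ B) ≤ ((orderOf x + orderOf y : ℕ) : ℝ) → Comb Nat.totient B θ N m (orderOf x + orderOf y)) ∧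
      (Real.exp (Real.log N ^ B) ≤ ((orderOf x - orderOf y : ℕ) : ℝ) → Comb Nat.totient B θ N m (orderOf x - orderOf y)) := by
  refine ⟨?_, PowersTimesPowersOfPi.result.2.2.2, ⟨lm_totient, lm_sigma⟩,
    fun α d hα hd => expanding_pow hα hd, fun f B θ N m s t hs ht => comb_pm hs ht,
    fun B θ N m x y => comb_orders x y⟩
  intro D hD f hf G d hG κ θ B c hκ h1 hθ hB hc hcb
  obtain ⟨s, hs, hs1⟩ := exists_small hG.one_le h1
  obtain ⟨C, hC⟩ := count D hD hs
  obtain ⟨N₁, hN₁⟩ := comb_scale_nat (s := s) (C := C) hs 1 0 hf hG hκ hs1 hθ hB hc hcb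
  refine ⟨N₁, fun N hN => ?_⟩
  have key := hN₁ (fun _ n => ¬ Good D n) (fun n => ¬ Good D n) (fun M hM => hC M hM) (fun n M _ _ _ _ h => h) N hN
  simpa only [not_not] using key

end Pool.Agent.Results.MP_4c2ad3_nt.DivisorSums
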